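import Mathlib
import Pool.Prelude.Def_F_458e953d
import Pool.Agent.Helper22.OracleDefs
import Pool.Agent.Hrd.Defs
import Pool.Agent.Hrd.Main

set_option autoImplicit false

namespace Pool.Agent.Hrd.Result.HardLanguages

open N68a2faeb N793a5b8e Pool.Agent.Helper22 Pool.Agent.Hrd

/-- The structure of the decidable languages that are hard for NP ∩ coNP. Below each of them that
is not itself in NP ∩ coNP there is another one, `H'`, to which `H` is not reducible, not even by
nondeterministic computations with oracle `H'`. Therefore NP ∩ coNP has a complete language if and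
only if there is a minimal decidable hard language, and NP differs from coNP if and only if some
language of NP is hard for NP ∩ coNP but not NP-complete, not even in the same weak sense. -/
theorem result :
    -- there is an easier hard language
    (∀ H : DecisionProblem, Dec H → Hard H → H ∉ NP ∩ coNP →
      ∃ H' : DecisionProblem, Dec H' ∧ Hard H' ∧ ManyOneReducible H' H ∧
        H ∉ NPo H' ∩ coNPo H') ∧
    -- complete languages and minimal hard languages, for many-one reducibility
    ((∃ L, IsCompleteFor (NP ∩ coNP) L) ↔ ∃ H, Dec H ∧ Hard H ∧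
      ∀ H', Dec H' → Hard H' → ManyOneReducible H' H → ManyOneReducible H H') ∧
    -- the same for Turing reducibility
    ((∃ L, IsCompleteFor (NP ∩ coNP) L) ↔ ∃ H, Dec H ∧ Hard H ∧
      ∀ H', Dec H' → Hard H' → TuringReducible H' H → TuringReducible H H') ∧
    -- hard languages in NP
    (NP ≠ coNP ↔ ∃ H ∈ NP, Hard H ∧ ¬ NP ⊆ coNPo H) := by
  refine ⟨fun H hD hH hn => exists_easier hD hH hn, ⟨?_, ?_⟩, ⟨?_, ?_⟩, ?_, ?_⟩
  · rintro ⟨L, hL, hc⟩
    exact ⟨L, dec_of_mem hL, hc, fun H' _ hH' _ => hH' L hL⟩
  · rintro ⟨H, hD, hH, hmin⟩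
    refine ⟨H, ?_, hH⟩
    by_contra hn
    obtain ⟨H', hD', hH', hred, hno⟩ := exists_easier hD hH hn
    exact hno (turing_of_manyOne (hmin H' hD' hH' hred)).mem
  · rintro ⟨L, hL, hc⟩
    exact ⟨L, dec_of_mem hL, hc, fun H' _ hH' _ => turing_of_manyOne (hH' L hL)⟩
  · rintro ⟨H, hD, hH, hmin⟩
    refine ⟨H, ?_, hH⟩
    by_contra hn
    obtain ⟨H', hD', hH', hred, hno⟩ := exists_easier hD hH hn
    exact hno (hmin H' hD' hH' (turing_of_manyOne hred)).mem
  · intro hne
    obtain ⟨C, hC⟩ := exists_NP_complete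
    have hn : C ∉ NP ∩ coNP := fun h => hne (eq_of_complete_mem hC h.2)
    obtain ⟨H', hD', hH', hred, hno⟩ := exists_easier (dec_of_NP hC.1) (fun L hL => hC.2 L hL.1) hn
    refine ⟨H', NP_of_reducible hred hC.1, hH', fun hsub => hno ⟨NP_subset _ hC.1, hsub hC.1⟩⟩
  · rintro ⟨H, hH, -, hno⟩ heq
    apply hno
    intro L hL
    rw [heq] at hL
    exact NP_subset H hL

end Pool.Agent.Hrd.Result.HardLanguages
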